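import Mathlib

/-!
# Rational Chow groups: abstract data

Smooth projective varieties over a fixed algebraically closed field, rational Chow groups, exterior
and intersection products, correspondences, points, and the Abel-Jacobi map for zero-cycles.
-/

set_option autoImplicit false

namespace Pool.Agent.U644.SQ

universe u v w

/-- The data. -/
structure ChowTheory where
  /-- smooth projective connected varieties over the base field -/
  Obj : Type u
  /-- the rational Chow group, all codimensions -/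
  CH : Obj → Type v
  [acg : ∀ X, AddCommGroup (CH X)]
  [mod : ∀ X, Module ℚ (CH X)]
  /-- the product variety -/
  prod : Obj → Obj → Obj
  /-- the smooth projective connected curves -/
  IsCurve : Obj → Prop
  /-- the rational points -/
  Pt : Obj → Type w
  /-- the class of a point -/
  pt : ∀ X, Pt X → CH X
  /-- the point `(a, b)` of a product -/
  pair : ∀ X Y, Pt X → Pt Y → Pt (prod X Y)
  /-- the class of the variety itself -/
  one : ∀ X, CH X
  /-- the exterior product -/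
  box : ∀ X Y, CH X →ₗ[ℚ] CH Y →ₗ[ℚ] CH (prod X Y)
  /-- the intersection product -/
  mul : ∀ X, CH X →ₗ[ℚ] CH X →ₗ[ℚ] CH X
  /-- the action of a correspondence -/
  act : ∀ X Y, CH (prod X Y) → CH X →ₗ[ℚ] CH Y
  /-- the target of the Abel-Jacobi map for zero-cycles: degree and image in the Albanese variety,
  tensor `ℚ` -/
  J : Obj → Type v
  [acgJ : ∀ X, AddCommGroup (J X)]
  [modJ : ∀ X, Module ℚ (J X)]
  /-- degree and Abel-Jacobi map of zero-cycles -/
  aj : ∀ X, CH X →ₗ[ℚ] J X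

attribute [instance] ChowTheory.acg ChowTheory.mod ChowTheory.acgJ ChowTheory.modJ

namespace ChowTheory

variable (T : ChowTheory.{u, v, w})

/-- `z × w`. -/
def ext {X Y : T.Obj} (z : T.CH X) (w : T.CH Y) : T.CH (T.prod X Y) := T.box X Y z w

/-- `z · w`. -/
def inter {X : T.Obj} (z w : T.CH X) : T.CH X := T.mul X z w

/-- The class `[(a, b)]`. -/
def ptPair {X Y : T.Obj} (a : T.Pt X) (b : T.Pt Y) : T.CH (T.prod X Y) :=
  T.pt (T.prod X Y) (T.pair X Y a b)

/-- `[a] - [b]`. -/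
def diff {X : T.Obj} (a b : T.Pt X) : T.CH X := T.pt X a - T.pt X b

/-- `z` is algebraically trivial: `z = Γ_*([a] - [b])` for points `a`, `b` of a curve `C` and a
correspondence `Γ` from `C` to `X`. -/
def AlgTrivial {X : T.Obj} (z : T.CH X) : Prop :=
  ∃ C : T.Obj, T.IsCurve C ∧ ∃ (a b : T.Pt C) (Γ : T.CH (T.prod C X)), T.act C X Γ (T.diff a b) = z

/-- The zero-cycles. -/
def Zero (X : T.Obj) : Submodule ℚ (T.CH X) := Submodule.span ℚ (Set.range (T.pt X))

/-- The Abel-Jacobi map is injective up to torsion on zero-cycles of degree zero. -/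
def AJInjective (X : T.Obj) : Prop := ∀ z ∈ T.Zero X, T.aj X z = 0 → z = 0

/-- The projection `p` of `X × Y` to `X` on zero-cycles: `p_*[(a, b)] = [a]`, compatible with the
kernels of the Abel-Jacobi maps. -/
def IsFst (X Y : T.Obj) (p : T.CH (T.prod X Y) →ₗ[ℚ] T.CH X) : Prop :=
  (∀ a b, p (T.ptPair a b) = T.pt X a) ∧
    ∀ z ∈ T.Zero (T.prod X Y), T.aj (T.prod X Y) z = 0 → T.aj X (p z) = 0

/-- The projection `q` of `X × Y` to `Y` on zero-cycles: `q_*[(a, b)] = [b]`, compatible with the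
kernels of the Abel-Jacobi maps. -/
def IsSnd (X Y : T.Obj) (q : T.CH (T.prod X Y) →ₗ[ℚ] T.CH Y) : Prop :=
  (∀ a b, q (T.ptPair a b) = T.pt Y b) ∧
    ∀ z ∈ T.Zero (T.prod X Y), T.aj (T.prod X Y) z = 0 → T.aj Y (q z) = 0

/-- `g` is a right inverse of `f` on zero-cycles, compatible with the kernels of the Abel-Jacobi
maps: for a surjective morphism `f` from `P` to `X` it is `z ↦ (1 / m) h ^ r · f^* z`, with `h` ample and
`r = dim P - dim X`. -/
def IsSection (P X : T.Obj) (f : T.CH P →ₗ[ℚ] T.CH X) (g : T.CH X →ₗ[ℚ] T.CH P) : Prop :=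
  ∀ z ∈ T.Zero X, g z ∈ T.Zero P ∧ (T.aj X z = 0 → T.aj P (g z) = 0) ∧ f (g z) = z

/-- `P` dominates `X` for zero-cycles. -/
def Dominates (P X : T.Obj) : Prop :=
  ∃ (f : T.CH P →ₗ[ℚ] T.CH X) (g : T.CH X →ₗ[ℚ] T.CH P), T.IsSection P X f g

/-- The varieties dominated by products of curves. -/
inductive Built : T.Obj → Prop
  | curve {C : T.Obj} : T.IsCurve C → Built C
  | prod {X Y : T.Obj} : Built X → Built Y → Built (T.prod X Y)
  | dom {P X : T.Obj} : Built P → T.Dominates P X → Built X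

/-- There is a curve `C` with points `a`, `b` and correspondences to `C₁`, `C₂` which send
`[a]`, `[b]` to `[a₁]`, `[b₁]` and to `[a₂]`, `[b₂]`. -/
def Joined {C₁ C₂ : T.Obj} (a₁ b₁ : T.Pt C₁) (a₂ b₂ : T.Pt C₂) : Prop :=
  ∃ C : T.Obj, T.IsCurve C ∧ ∃ (a b : T.Pt C) (Γ₁ : T.CH (T.prod C C₁)) (Γ₂ : T.CH (T.prod C C₂)),
    (T.act C C₁ Γ₁ (T.pt C a) = T.pt C₁ a₁ ∧ T.act C C₁ Γ₁ (T.pt C b) = T.pt C₁ b₁) ∧
      T.act C C₂ Γ₂ (T.pt C a) = T.pt C₂ a₂ ∧ T.act C C₂ Γ₂ (T.pt C b) = T.pt C₂ b₂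

/-- `Γ''` is the product of the correspondences `Γ`, `Γ'`. -/
def IsProdCorr {X X' Y Y' : T.Obj} (Γ : T.CH (T.prod X Y)) (Γ' : T.CH (T.prod X' Y'))
    (Γ'' : T.CH (T.prod (T.prod X X') (T.prod Y Y'))) : Prop :=
  ∀ x x', T.act (T.prod X X') (T.prod Y Y') Γ'' (T.ext x x') = T.ext (T.act X Y Γ x) (T.act X' Y' Γ' x')

/-- The known properties. -/
structure Known : Prop where
  nonempty : ∀ X, Nonempty (T.Pt X)
  pair_surjective : ∀ X Y (c : T.Pt (T.prod X Y)), ∃ a b, c = T.pair X Y a b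
  ext_pt : ∀ X Y (a : T.Pt X) (b : T.Pt Y), T.ext (T.pt X a) (T.pt Y b) = T.ptPair a b
  comp : ∀ X Y Z (Γ : T.CH (T.prod X Y)) (Γ' : T.CH (T.prod Y Z)),
    ∃ Γ'', ∀ x, T.act X Z Γ'' x = T.act Y Z Γ' (T.act X Y Γ x)
  prodCorr : ∀ X X' Y Y' (Γ : T.CH (T.prod X Y)) (Γ' : T.CH (T.prod X' Y')),
    ∃ Γ'', T.IsProdCorr Γ Γ' Γ''
  joined : ∀ C₁ C₂, T.IsCurve C₁ → T.IsCurve C₂ → ∀ (a₁ b₁ : T.Pt C₁) (a₂ b₂ : T.Pt C₂),
    T.Joined a₁ b₁ a₂ b₂
  algTrivial_diff : ∀ X (a b : T.Pt X), T.AlgTrivial (T.diff a b)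
  diagonal : ∀ X, ∃ d : T.CH (T.prod X X) →ₗ[ℚ] T.CH X, ∀ z w, d (T.ext z w) = T.inter z w
  inter_ext : ∀ X Y (z : T.CH X) (w : T.CH Y),
    T.inter (T.ext z (T.one Y)) (T.ext (T.one X) w) = T.ext z w
  algTrivial_fst : ∀ X Y (z : T.CH X), T.AlgTrivial z → T.AlgTrivial (T.ext z (T.one Y))
  algTrivial_snd : ∀ X Y (w : T.CH Y), T.AlgTrivial w → T.AlgTrivial (T.ext (T.one X) w)
  fst : ∀ X Y, ∃ p, T.IsFst X Y p
  snd : ∀ X Y, ∃ q, T.IsSnd X Y q
  aj_ext : ∀ X Y (a b : T.Pt X) (c d : T.Pt Y), T.aj _ (T.ext (T.diff a b) (T.diff c d)) = 0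
  aj_curve : ∀ C, T.IsCurve C → T.AJInjective C

/-- On the square of every curve `[(a, a)] - [(a, b)] - [(b, a)] + [(b, b)]` is zero. -/
def FourTerm : Prop := ∀ C, T.IsCurve C → ∀ a b : T.Pt C,
  T.ptPair a a - T.ptPair a b - T.ptPair b a + T.ptPair b b = 0

/-- `z × z = 0` for all algebraically trivial cycles. -/
def Squares : Prop := ∀ X (z : T.CH X), T.AlgTrivial z → T.ext z z = 0

/-- `z × w = 0` for all algebraically trivial cycles. -/
def Exterior : Prop := ∀ X Y (z : T.CH X) (w : T.CH Y), T.AlgTrivial z → T.AlgTrivial w →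
  T.ext z w = 0

/-- `z · w = 0` for all algebraically trivial cycles. -/
def Intersections : Prop := ∀ X (z w : T.CH X), T.AlgTrivial z → T.AlgTrivial w → T.inter z w = 0

/-- The Abel-Jacobi map is injective up to torsion on zero-cycles of degree zero on products of
two curves. -/
def TwoCurves : Prop := ∀ C C', T.IsCurve C → T.IsCurve C' → T.AJInjective (T.prod C C')

/-- The Abel-Jacobi map is injective up to torsion on zero-cycles of degree zero on all varieties
dominated by products of curves. -/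
def AllBuilt : Prop := ∀ X, T.Built X → T.AJInjective X

end ChowTheory

end Pool.Agent.U644.SQ
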