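import Pool.Agent.U644.SQ.Defs

/-!
# Zero-cycles on products of curves and products of algebraically trivial cycles
-/

set_option autoImplicit false

namespace Pool.Agent.U644.SQ.ChowTheory

universe u v w

variable {T : ChowTheory.{u, v, w}}

lemma ext_def {X Y : T.Obj} (z : T.CH X) (w : T.CH Y) : T.ext z w = T.box X Y z w := rfl

lemma ext_diff (h : T.Known) {X Y : T.Obj} (a b : T.Pt X) (c d : T.Pt Y) :
    T.ext (T.diff a b) (T.diff c d) =
      T.ptPair a c - T.ptPair a d - T.ptPair b c + T.ptPair b d := by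
  rw [← h.ext_pt, ← h.ext_pt, ← h.ext_pt, ← h.ext_pt]
  simp only [ext_def, diff, map_sub, LinearMap.sub_apply]
  abel

lemma fourTerm_iff (h : T.Known) :
    T.FourTerm ↔ ∀ C, T.IsCurve C → ∀ a b : T.Pt C, T.ext (T.diff a b) (T.diff a b) = 0 := by
  constructor
  · intro h1 C hC a b
    rw [ext_diff h]
    exact h1 C hC a b
  · intro h1 C hC a b
    rw [← ext_diff h]
    exact h1 C hC a b

lemma exterior_of_fourTerm (h : T.Known) (hf : T.FourTerm) : T.Exterior := by
  rw [fourTerm_iff h] at hf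
  rintro X Y z w ⟨C₁, hC₁, a₁, b₁, Γ₁, rfl⟩ ⟨C₂, hC₂, a₂, b₂, Γ₂, rfl⟩
  obtain ⟨C, hC, a, b, Δ₁, Δ₂, ⟨h1, h2⟩, h3, h4⟩ := h.joined C₁ C₂ hC₁ hC₂ a₁ b₁ a₂ b₂
  obtain ⟨Θ₁, hΘ₁⟩ := h.comp C C₁ X Δ₁ Γ₁
  obtain ⟨Θ₂, hΘ₂⟩ := h.comp C C₂ Y Δ₂ Γ₂
  obtain ⟨Θ, hΘ⟩ := h.prodCorr C C X Y Θ₁ Θ₂
  have e1 : T.act C₁ X Γ₁ (T.diff a₁ b₁) = T.act C X Θ₁ (T.diff a b) := by
    rw [hΘ₁, diff, diff, map_sub (T.act C C₁ Δ₁), h1, h2]
  have e2 : T.act C₂ Y Γ₂ (T.diff a₂ b₂) = T.act C Y Θ₂ (T.diff a b) := by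
    rw [hΘ₂, diff, diff, map_sub (T.act C C₂ Δ₂), h3, h4]
  rw [e1, e2, ← hΘ, hf C hC a b, map_zero]

lemma ajInjective_prod (h : T.Known) (he : T.Exterior) {X Y : T.Obj} (hX : T.AJInjective X)
    (hY : T.AJInjective Y) : T.AJInjective (T.prod X Y) := by
  intro z hz hz0
  obtain ⟨o⟩ := h.nonempty X
  obtain ⟨o'⟩ := h.nonempty Y
  obtain ⟨p, hp, hp'⟩ := h.fst X Y
  obtain ⟨q, hq, hq'⟩ := h.snd X Y
  have key : ∀ z ∈ T.Zero (T.prod X Y), ∃ c : ℚ,
      z = T.ext (p z) (T.pt Y o') + T.ext (T.pt X o) (q z) + c • T.ptPair o o' := by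
    intro z hz
    induction hz using Submodule.span_induction with
    | mem x hx =>
      obtain ⟨c, rfl⟩ := hx
      obtain ⟨a, b, rfl⟩ := h.pair_surjective X Y c
      refine ⟨-1, ?_⟩
      have h1 : T.pt (T.prod X Y) (T.pair X Y a b) = T.ptPair a b := rfl
      rw [h1, hp, hq, h.ext_pt, h.ext_pt]
      have h2 := he X Y _ _ (h.algTrivial_diff X a o) (h.algTrivial_diff Y b o')
      rw [ext_diff h] at h2
      rw [neg_smul, one_smul]
      have h3 : T.ptPair a b = T.ptPair a b - (T.ptPair a b - T.ptPair a o' - T.ptPair o b +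
        T.ptPair o o') := by rw [h2, sub_zero]
      rw [h3]
      abel
    | zero => exact ⟨0, by simp [ext_def]⟩
    | add x y _ _ hx hy =>
      obtain ⟨c, hc⟩ := hx
      obtain ⟨d, hd⟩ := hy
      refine ⟨c + d, ?_⟩
      conv_lhs => rw [hc, hd]
      simp only [ext_def, map_add, LinearMap.add_apply, add_smul]
      abel
    | smul r x _ hx =>
      obtain ⟨c, hc⟩ := hx
      refine ⟨r * c, ?_⟩
      conv_lhs => rw [hc]
      simp only [ext_def, map_smul, LinearMap.smul_apply, smul_add, mul_smul]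
  obtain ⟨c, hc⟩ := key z hz
  have hpz : p z = 0 := by
    refine hX _ ?_ (hp' z hz hz0)
    have : T.Zero (T.prod X Y) ≤ (T.Zero X).comap p := by
      refine Submodule.span_le.2 ?_
      rintro _ ⟨e, rfl⟩
      obtain ⟨a, b, rfl⟩ := h.pair_surjective X Y e
      refine Submodule.mem_comap.2 ?_
      have h1 : p (T.pt (T.prod X Y) (T.pair X Y a b)) = T.pt X a := hp a b
      rw [h1]
      exact Submodule.subset_span ⟨a, rfl⟩
    exact this hz
  have hqz : q z = 0 := by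
    refine hY _ ?_ (hq' z hz hz0)
    have : T.Zero (T.prod X Y) ≤ (T.Zero Y).comap q := by
      refine Submodule.span_le.2 ?_
      rintro _ ⟨e, rfl⟩
      obtain ⟨a, b, rfl⟩ := h.pair_surjective X Y e
      refine Submodule.mem_comap.2 ?_
      have h1 : q (T.pt (T.prod X Y) (T.pair X Y a b)) = T.pt Y b := hq a b
      rw [h1]
      exact Submodule.subset_span ⟨b, rfl⟩
    exact this hz
  rw [hpz, hqz] at hc
  have hc' : z = c • T.ptPair o o' := by
    rw [hc]
    simp [ext_def]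
  have h2 : p z = c • T.pt X o := by rw [hc', map_smul, hp]
  rw [hpz] at h2
  have h3 : T.ext (c • T.pt X o) (T.pt Y o') = c • T.ptPair o o' := by
    rw [← h.ext_pt]
    simp [ext_def]
  rw [hc', ← h3, ← h2]
  simp [ext_def]

lemma ajInjective_dom {P X : T.Obj} (hP : T.AJInjective P) (hd : T.Dominates P X) :
    T.AJInjective X := by
  obtain ⟨f, g, hfg⟩ := hd
  intro z hz hz0
  obtain ⟨h1, h2, h3⟩ := hfg z hz
  rw [← h3, hP _ h1 (h2 hz0), map_zero]

lemma allBuilt_of_exterior (h : T.Known) (he : T.Exterior) : T.AllBuilt := by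
  intro X hX
  induction hX with
  | curve hC => exact h.aj_curve _ hC
  | prod _ _ h1 h2 => exact ajInjective_prod h he h1 h2
  | dom _ hd h1 => exact ajInjective_dom h1 hd

lemma ext_mem_zero (h : T.Known) {X Y : T.Obj} (a b : T.Pt X) (c d : T.Pt Y) :
    T.ext (T.diff a b) (T.diff c d) ∈ T.Zero (T.prod X Y) := by
  rw [ext_diff h]
  have h1 : ∀ (a : T.Pt X) (c : T.Pt Y), T.ptPair a c ∈ T.Zero (T.prod X Y) :=
    fun a c => Submodule.subset_span ⟨_, rfl⟩
  exact add_mem (sub_mem (sub_mem (h1 _ _) (h1 _ _)) (h1 _ _)) (h1 _ _)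

/-- The equivalences. -/
theorem equivalences (h : T.Known) : List.TFAE [T.FourTerm, T.Squares, T.Exterior,
    T.Intersections, T.TwoCurves, T.AllBuilt] := by
  tfae_have 1 → 3 := exterior_of_fourTerm h
  tfae_have 3 → 2 := fun he X z hz => he X X z z hz hz
  tfae_have 2 → 1 := by
    intro hs
    rw [fourTerm_iff h]
    exact fun C _ a b => hs C _ (h.algTrivial_diff C a b)
  tfae_have 3 → 4 := by
    intro he X z w hz hw
    obtain ⟨d, hd⟩ := h.diagonal X
    rw [← hd, he X X z w hz hw, map_zero]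
  tfae_have 4 → 1 := by
    intro hi
    rw [fourTerm_iff h]
    intro C _ a b
    rw [← h.inter_ext]
    exact hi _ _ _ (h.algTrivial_fst _ _ _ (h.algTrivial_diff C a b))
      (h.algTrivial_snd _ _ _ (h.algTrivial_diff C a b))
  tfae_have 3 → 6 := allBuilt_of_exterior h
  tfae_have 6 → 5 := fun h6 C C' hC hC' => h6 _ (.prod (.curve hC) (.curve hC'))
  tfae_have 5 → 1 := by
    intro h5
    rw [fourTerm_iff h]
    exact fun C hC a b => h5 C C hC hC _ (ext_mem_zero h a b a b) (h.aj_ext C C a b a b)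
  tfae_finish

end Pool.Agent.U644.SQ.ChowTheory
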